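import Pool.Agent.H85.Stek3

set_option autoImplicit false

namespace Pool.Agent.Results.MP_441052_gt.LargeSteklov

open Filter Pool.Agent.H85.Stek3Defs

/-- On `M = [0, 1] × T²` there are smooth Riemannian metrics of volume one, all inducing the same
flat metric of total area two on the boundary, whose first nonzero Steklov eigenvalue tends to
infinity. -/
theorem result : ∃ g : ℕ → Pt → Matrix (Fin 3) (Fin 3) ℝ, (∀ n, IsMetric (g n)) ∧
    (∀ n, intM (g n) (fun _ => 1) = 1) ∧ (∀ n, intB (g n) (fun _ => 1) = 2) ∧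
    (∀ n p, p 0 = 0 ∨ p 0 = 1 → induced (g n) p = 1) ∧
    Tendsto (fun n => sigma1 (g n)) atTop atTop := by
  obtain ⟨g, h1, h2, h3, h4⟩ := Pool.Agent.H85.Stek3.main
  refine ⟨g, h1, h2, fun n => ?_, h3, h4⟩
  simp [intB, h3]
  norm_num

end Pool.Agent.Results.MP_441052_gt.LargeSteklov
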